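import Mathlib

/-!
# MP_8dcfbf_co: two specified terms in regular type B sequences

The least length of a regular type B sequence containing `62` is `8`, but the least length of one
that contains both `57` and `62` is `10`. So `b(57, 62) = b(62) + 2`.

Proof of the lower bound. A term of a sequence of length `n` is at most `2^(n-2)`, and the sum of
the terms is at most `2^(n-1)`. So if a sequence of length at most `9` contains `57` and `62`, then
the two terms are the last two which were put in, at the lengths `8` and `9`, and the sequence of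
length `7` before that has sum at least `57`. There are `176` such sequences, and none of them can
be continued.
-/

set_option autoImplicit false

namespace Pool.Agent.Results.MP_8dcfbf_co.TwoMoreTermsB

/-- Regular type B sequences: start with `(1, 1)`; attach at the left end or at the right end a new
term equal to the sum of a block of `j ≥ 1` consecutive terms. The one-term sequence `(1)` also
counts. -/
inductive TypeB : List ℕ → Prop
  | one : TypeB [1]
  | start : TypeB [1, 1]
  | left (d : List ℕ) (i j : ℕ) (h : TypeB d) (h0 : 2 ≤ d.length) (h1 : 1 ≤ j)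
      (h2 : i + j ≤ d.length) : TypeB (((d.drop i).take j).sum :: d)
  | right (d : List ℕ) (i j : ℕ) (h : TypeB d) (h0 : 2 ≤ d.length) (h1 : 1 ≤ j)
      (h2 : i + j ≤ d.length) : TypeB (d ++ [((d.drop i).take j).sum])

/-- The set of the lengths `n` of the regular type B sequences that contain some permutation of `ks`
as a subsequence. -/
def lengths (ks : List ℕ) : Set ℕ :=
  {n | ∃ d : List ℕ, TypeB d ∧ d.length = n ∧ ∃ l : List ℕ, l.Perm ks ∧ l.Sublist d}

/-- `b(k_1, …, k_m)` is the least length of a regular type B sequence that contains some permutation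
of `(k_1, …, k_m)` as a subsequence. -/
noncomputable def b (ks : List ℕ) : ℕ := sInf (lengths ks)

/-- the block sums of `d` -/
def blocks (d : List ℕ) : List ℕ :=
  ((List.range d.length).flatMap fun i =>
    (List.range d.length).map fun j => ((d.drop i).take (j + 1)).sum).dedup

/-- all continuations of `d` by one term -/
def next (d : List ℕ) : List (List ℕ) := (blocks d).flatMap fun v => [v :: d, d ++ [v]]

/-- the sequences of length `n + 2` whose sum is at least `57 / 2^(5 - n)` -/
def lev : ℕ → List (List ℕ)
  | 0 => [[1, 1]]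
  | n + 1 => ((lev n).flatMap next).filter fun d => 57 ≤ 2 ^ (5 - (n + 1)) * d.sum

lemma mem_blocks (d : List ℕ) (i j : ℕ) (h1 : 1 ≤ j) (h2 : i + j ≤ d.length) :
    ((d.drop i).take j).sum ∈ blocks d := by
  unfold blocks
  rw [List.mem_dedup, List.mem_flatMap]
  refine ⟨i, List.mem_range.2 (by omega), List.mem_map.2 ⟨j - 1, List.mem_range.2 (by omega), ?_⟩⟩
  rw [show j - 1 + 1 = j by omega]

lemma block_le (d : List ℕ) (i j : ℕ) : ((d.drop i).take j).sum ≤ d.sum := by
  calc ((d.drop i).take j).sum ≤ ((d.drop i).take j).sum + ((d.drop i).drop j).sum :=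
        Nat.le_add_right _ _
    _ = (d.drop i).sum := List.sum_take_add_sum_drop _ j
    _ ≤ (d.take i).sum + (d.drop i).sum := Nat.le_add_left _ _
    _ = d.sum := List.sum_take_add_sum_drop d i

/-- Every regular type B sequence is `(1)` or `(1, 1)` or a continuation. -/
lemma cases_next {e : List ℕ} (he : TypeB e) :
    e = [1] ∨ e = [1, 1] ∨ ∃ d, TypeB d ∧ 2 ≤ d.length ∧ e ∈ next d ∧ e.length = d.length + 1 ∧
      ∃ t, t ≤ d.sum ∧ e.sum = d.sum + t ∧ ∀ x, x ∈ e ↔ x = t ∨ x ∈ d := by
  cases he with
  | one => exact Or.inl rfl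
  | start => exact Or.inr (Or.inl rfl)
  | left d i j h h0 h1 h2 =>
    refine Or.inr (Or.inr ⟨d, h, h0, ?_, by simp, ((d.drop i).take j).sum, block_le d i j,
      by simp [add_comm], fun x => by simp⟩)
    exact List.mem_flatMap.2 ⟨_, mem_blocks d i j h1 h2, by simp⟩
  | right d i j h h0 h1 h2 =>
    refine Or.inr (Or.inr ⟨d, h, h0, ?_, by simp, ((d.drop i).take j).sum, block_le d i j,
      by simp, fun x => by simp [or_comm]⟩)
    exact List.mem_flatMap.2 ⟨_, mem_blocks d i j h1 h2, by simp⟩

/-- bounds for the length, the sum and the terms -/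
lemma bounds : ∀ n : ℕ, ∀ e : List ℕ, TypeB e → e.length = n → 2 ≤ n →
    e.sum ≤ 2 ^ (n - 1) ∧ ∀ x ∈ e, x ≤ 2 ^ (n - 2) := by
  intro n
  induction n with
  | zero => intro e he hl h; omega
  | succ n ih =>
    intro e he hl hn
    rcases cases_next he with rfl | rfl | ⟨d, hd, hd2, -, h, t, ht, hs, hm⟩
    · simp at hl
      omega
    · simp only [List.length_cons, List.length_nil] at hl
      obtain rfl : n = 1 := by omega
      refine ⟨by simp, ?_⟩
      intro x hx
      simp at hx
      simp [hx]
    · obtain ⟨h3, h4⟩ := ih d hd (by omega) (by omega)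
      obtain ⟨m, rfl⟩ : ∃ m, n = m + 2 := ⟨n - 2, by omega⟩
      simp only [show m + 2 - 1 = m + 1 by omega, show m + 2 - 2 = m by omega] at h3 h4
      simp only [show m + 2 + 1 - 1 = m + 2 by omega, show m + 2 + 1 - 2 = m + 1 by omega]
      have e1 : 2 ^ (m + 2) = 2 * 2 ^ (m + 1) := by ring
      have e2 : 2 ^ (m + 1) = 2 * 2 ^ m := by ring
      refine ⟨by omega, fun x hx => ?_⟩
      rcases (hm x).1 hx with rfl | hx
      · omega
      · have := h4 x hx
        omega

/-- The list `lev n` is complete. -/
lemma lev_complete : ∀ n : ℕ, n ≤ 5 → ∀ e : List ℕ, TypeB e → e.length = n + 2 →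
    57 ≤ 2 ^ (5 - n) * e.sum → e ∈ lev n := by
  intro n
  induction n with
  | zero =>
    intro _ e he hl _
    rcases cases_next he with rfl | rfl | ⟨d, hd, hd2, -, h, -⟩
    · simp at hl
    · simp [lev]
    · omega
  | succ n ih =>
    intro hn e he hl hs
    rcases cases_next he with rfl | rfl | ⟨d, hd, hd2, hmem, h, t, ht, hsum, -⟩
    · simp at hl
    · simp at hl
    · have h57 : 57 ≤ 2 ^ (5 - n) * d.sum := by
        have e1 : 2 ^ (5 - n) = 2 ^ (5 - (n + 1)) * 2 := by
          rw [← pow_succ]
          congr 1
          omega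
        calc 57 ≤ 2 ^ (5 - (n + 1)) * e.sum := hs
          _ ≤ 2 ^ (5 - (n + 1)) * (2 * d.sum) := Nat.mul_le_mul_left _ (by omega)
          _ = _ := by rw [e1]; ring
      have := ih (by omega) d hd (by omega) h57
      unfold lev
      rw [List.mem_filter]
      exact ⟨List.mem_flatMap.2 ⟨d, this, hmem⟩, by simpa using hs⟩

/-- No continuation of `X` by two terms puts in both `57` and `62`. -/
def good (X : List ℕ) : Bool :=
  (next X).all fun Y => !(Y.contains 57 || Y.contains 62) ||
    (next Y).all fun Z => !(Z.contains 57 && Z.contains 62)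

lemma check : ((lev 5).all good) = true := by decide +kernel

/-- A sequence which contains `57` and `62` has length at least `10`. -/
lemma lower : ∀ n : ℕ, ∀ e : List ℕ, TypeB e → e.length = n → 57 ∈ e → 62 ∈ e → 10 ≤ n := by
  intro n
  induction n with
  | zero =>
    intro e he hl h1 _
    rw [List.length_eq_zero_iff.1 hl] at h1
    simp at h1
  | succ n ih =>
    intro e he hl h57 h62
    by_contra hcon
    rcases cases_next he with rfl | rfl | ⟨Y, hY, hY2, hZ, hYl, t, ht, hsum, hm⟩
    · simp at h57
    · simp at h57
    · have hYn : Y.length = n := by omega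
      by_cases hb : 57 ∈ Y ∧ 62 ∈ Y
      · have := ih Y hY hYn hb.1 hb.2
        omega
      · have hone : 57 ∈ Y ∨ 62 ∈ Y := by
          rcases (hm 57).1 h57 with h | h
          · rcases (hm 62).1 h62 with h' | h'
            · omega
            · exact Or.inr h'
          · exact Or.inl h
        obtain ⟨-, hterm⟩ := bounds n Y hY hYn (by omega)
        have hn8 : n = 8 := by
          have h1 : 2 ^ 5 < 2 ^ (n - 2) := by
            rcases hone with h | h
            · have := hterm _ h
              omega
            · have := hterm _ h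
              omega
          have := (Nat.pow_lt_pow_iff_right (by norm_num : 1 < 2)).1 h1
          omega
        rcases cases_next hY with rfl | rfl | ⟨X, hX, hX2, hYX, hXl, t', ht', hsum', hm'⟩
        · simp at hone
        · simp at hone
        · have hX7 : X.length = 7 := by omega
          obtain ⟨-, hXterm⟩ := bounds 7 X hX hX7 (by norm_num)
          have ht57 : 57 ≤ t' := by
            rcases hone with h | h
            · rcases (hm' _).1 h with h | h
              · omega
              · have := hXterm _ h
                norm_num at this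
            · rcases (hm' _).1 h with h | h
              · omega
              · have := hXterm _ h
                norm_num at this
          have hXlev : X ∈ lev 5 := lev_complete 5 (le_refl _) X hX hX7 (by
            norm_num
            omega)
          have hg := (List.all_eq_true.1 check) X hXlev
          unfold good at hg
          have hg1 := (List.all_eq_true.1 hg) Y hYX
          rw [Bool.or_eq_true] at hg1
          rcases hg1 with hg1 | hg1
          · rcases hone with h | h <;> simp [h] at hg1
          · have hg2 := (List.all_eq_true.1 hg1) e hZ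
            simp [h57, h62] at hg2

lemma mem8 : TypeB [62, 32, 16, 8, 4, 2, 1, 1] := by
  have h1 := TypeB.left _ 0 2 TypeB.start (by simp) (by simp) (by simp)
  have h2 := TypeB.left _ 0 3 h1 (by simp) (by simp) (by simp)
  have h3 := TypeB.left _ 0 4 h2 (by simp) (by simp) (by simp)
  have h4 := TypeB.left _ 0 5 h3 (by simp) (by simp) (by simp)
  have h5 := TypeB.left _ 0 6 h4 (by simp) (by simp) (by simp)
  have h6 := TypeB.left _ 0 5 h5 (by simp) (by simp) (by simp)
  simpa using h6

lemma mem10 : TypeB [57, 62, 32, 16, 8, 4, 2, 1, 1, 56] := by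
  have h7 := TypeB.right _ 1 3 mem8 (by simp) (by simp) (by simp)
  have h8 := TypeB.left _ 7 2 h7 (by simp) (by simp) (by simp)
  simpa using h8

lemma least62 : IsLeast (lengths [62]) 8 := by
  refine ⟨⟨_, mem8, rfl, [62], List.Perm.refl _, by simp⟩, ?_⟩
  rintro n ⟨d, hd, hl, l, hp, hs⟩
  have h62 : 62 ∈ d := hs.subset (hp.symm.subset (by simp))
  by_contra hcon
  rcases Nat.lt_or_ge n 2 with hn | hn
  · rcases cases_next hd with rfl | rfl | ⟨d', -, h2, -, h, -⟩
    · simp at h62
    · simp at h62
    · omega
  · obtain ⟨-, h⟩ := bounds n d hd hl hn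
    have h1 : 2 ^ 5 < 2 ^ (n - 2) := by
      have := h _ h62
      omega
    have := (Nat.pow_lt_pow_iff_right (by norm_num : 1 < 2)).1 h1
    omega

lemma least5762 : IsLeast (lengths [57, 62]) 10 := by
  refine ⟨⟨_, mem10, rfl, [57, 62], List.Perm.refl _, by decide⟩, ?_⟩
  rintro n ⟨d, hd, hl, l, hp, hs⟩
  exact lower n d hd hl (hs.subset (hp.symm.subset (by simp)))
    (hs.subset (hp.symm.subset (by simp)))

/-- `b(62) = 8` and `b(57, 62) = 10`, both as minima of nonempty sets, so the inequality
`b(k₁, k₂) ≤ b(k₂) + 1` fails. -/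
theorem result :
    IsLeast (lengths [62]) 8 ∧ IsLeast (lengths [57, 62]) 10 ∧
    b [62] = 8 ∧ b [57, 62] = 10 ∧
    (∃ k₁ k₂ : ℕ, 1 ≤ k₁ ∧ k₁ ≤ k₂ ∧ b [k₂] + 2 ≤ b [k₁, k₂]) ∧
    ¬ ∀ k₁ k₂ : ℕ, 1 ≤ k₁ → k₁ ≤ k₂ → b [k₁, k₂] ≤ b [k₂] + 1 := by
  have e1 : b [62] = 8 := least62.csInf_eq
  have e2 : b [57, 62] = 10 := least5762.csInf_eq
  refine ⟨least62, least5762, e1, e2, ⟨57, 62, by norm_num, by norm_num, by omega⟩, fun h => ?_⟩
  have := h 57 62 (by norm_num) (by norm_num)
  omega

end Pool.Agent.Results.MP_8dcfbf_co.TwoMoreTermsB
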